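import Pool.Agent.H71.CQ.Basic

/-!
# Finitely many algebraic points are linked to a component (row LNK)
-/

set_option autoImplicit false

open Set

namespace Pool.Agent.H5.CQ

open Pool.Agent.H71.CQ

/-- the labels of the coding structure depend on one value of `S` -/
theorem le_dep {L : Type} (N : NF L) (e : ℕ → ℕ → L) (x : ℕ) (O : ℕ → Set {k // Wp N e k})
    (y : ℕ → ℕ) (t : ℕ → Equiv.Perm {k // Wp N e k}) (a b : LV N e) :
    ∃ (i : ℕ) (H : Bool → L), ∀ S : ℕ → Bool, LE N e x O y t S a b = H (S i) := by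
  classical
  have key : ∀ (c : Fin 3) (k : {k // Wp N e k}) (z : ℕ), ∃ (i : ℕ) (H : Bool → L),
      ∀ S : ℕ → Bool, Lw N e x O y t S c k z = H (S i) := by
    intro c k z
    by_cases h : c ≠ 0 ∧ Cm N e x z ∧ ∃ i, k ∈ O i ∧ Cls N e (O i) (y i) z
    · refine ⟨h.2.2.choose, fun s => if c = 2 ∧ s = true then
        e (t h.2.2.choose k) (y h.2.2.choose) else e k (y h.2.2.choose), fun S => ?_⟩
      unfold Lw
      rw [dif_pos h]
    · refine ⟨0, fun _ => e k z, fun S => ?_⟩
      unfold Lw
      rw [dif_neg h]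
  rcases a with k | v
  · rcases b with k' | w
    · exact ⟨0, fun _ => e k k', fun S => rfl⟩
    · obtain ⟨i, H, hH⟩ := key w.1 k w.2
      exact ⟨i, H, fun S => hH S⟩
  · rcases b with k' | w
    · obtain ⟨i, H, hH⟩ := key v.1 k' v.2
      exact ⟨i, fun s => N.rev (H s), fun S => congrArg N.rev (hH S)⟩
    · exact ⟨0, fun _ => if v.1 = w.1 then e v.2 w.2 else fr N (e v.2 v.2) (e w.2 w.2),
        fun S => rfl⟩

theorem pf_LNK (hCTV : T_CTV) (hLNA : T_LNA) (hLNM : T_LNM) (hLNI : T_LNI) : T_LNK := by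
  intro L _ _ N hN hP hF hU e he x hx
  by_contra hinf
  obtain ⟨O, y, t, hL⟩ := hLNA L N hN.toSep e he x hx hinf
  refine hP ?_
  have hI : Infinite (LV N e) := by
    classical
    refine Infinite.of_injective (fun n : ℕ => if h : Wp N e n then (Sum.inl ⟨n, h⟩ : LV N e)
      else Sum.inr (0, ⟨n, h⟩)) ?_
    intro m n hmn
    by_cases h1 : Wp N e m <;> by_cases h2 : Wp N e n
    · simp only [h1, h2, dif_pos] at hmn
      exact congrArg Subtype.val (Sum.inl.inj hmn)
    · simp only [h1, h2, dif_pos, dif_neg, not_false_eq_true] at hmn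
      cases hmn
    · simp only [h1, h2, dif_pos, dif_neg, not_false_eq_true] at hmn
      cases hmn
    · simp only [h1, h2, dif_neg, not_false_eq_true] at hmn
      exact congrArg Subtype.val (congrArg Prod.snd (Sum.inr.inj hmn))
  refine hCTV L N (LV N e) (fun S => LE N e x O y t S) ?_ (hLNM L N hN.toSep hF hU e x O y t hL)
    (hLNI L N hN.toSep hF hU e x O y t hL)
  intro a b
  obtain ⟨i, H, hH⟩ := le_dep N e x O y t a b
  have h1 : (fun S : ℕ → Bool => LE N e x O y t S a b) = fun S => H (S i) := funext hH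
  rw [h1]
  exact (measurable_of_finite H).comp (measurable_pi_apply i)

end Pool.Agent.H5.CQ
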